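import Pool.Agent.Helper6.NX.GoalsB2

/-! Project NX (helper6), packet FIN: the final inequality. -/

set_option linter.unusedVariables false
set_option linter.unusedSectionVars false

namespace Pool.Agent.Helper10.NX.FIN

open Pool.Agent.Helper6.NX Equiv Finset

section basic

variable {Ω α β γ : Type} [Fintype Ω]

lemma ent_congr (hl2 : S_L2) (P : Ω → ℝ) (X : Ω → α) (Y : Ω → β) (hP : IsLaw P)
    (h : ∀ ω ω', 0 < P ω → 0 < P ω' → (X ω = X ω' ↔ Y ω = Y ω')) : ent P X = ent P Y :=
  le_antisymm (hl2 Ω β α P Y X hP fun a b ha hb hab => (h a b ha hb).2 hab)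
    (hl2 Ω α β P X Y hP fun a b ha hb hab => (h a b ha hb).1 hab)

lemma ent_sub (hl2 : S_L2) (hl3c : S_L3C) (hl4 : S_L4) (P : Ω → ℝ) (X : Ω → α) (Y : Ω → β)
    (hP : IsLaw P) : ent P (fun ω => (X ω, Y ω)) ≤ ent P X + ent P Y := by
  have h1 := (hl4 Ω α β Unit P X Y (fun _ => ()) hP).2
  have h0 := (hl3c Ω α β P X Y hP).2.2.1
  have h2 : ent P (fun ω => (X ω, Y ω, ())) = ent P (fun ω => (X ω, Y ω)) :=
    ent_congr hl2 P _ _ hP (fun a b _ _ => by simp)
  have h3 : ent P (fun ω => (X ω, ())) = ent P X :=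
    ent_congr hl2 P _ _ hP (fun a b _ _ => by simp)
  have h4 : ent P (fun ω => (Y ω, ())) = ent P Y :=
    ent_congr hl2 P _ _ hP (fun a b _ _ => by simp)
  rw [h0, h2, h3, h4] at h1
  linarith

end basic

section prodlaw

variable {n : ℕ}

/-- product law of three copies -/
noncomputable def LL (lam : Perm (Fin n) → ℝ) : (Fin 3 → Perm (Fin n)) → ℝ :=
  fun y => ∏ i, lam (y i)

lemma sum_prod3 (h : Fin 3 → Perm (Fin n) → ℝ) :
    ∑ y : Fin 3 → Perm (Fin n), ∏ i, h i (y i) = ∏ i, ∑ c, h i c := by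
  rw [Finset.prod_univ_sum]
  simp [Fintype.piFinset_univ]

lemma isLaw_LL {lam : Perm (Fin n) → ℝ} (h : IsLaw lam) : IsLaw (LL lam) := by
  refine ⟨fun y => prod_nonneg fun i _ => h.1 _, ?_⟩
  have := sum_prod3 (fun _ : Fin 3 => lam)
  unfold LL
  rw [this, h.2]
  simp

lemma isLaw_prd {A B : Type} [Fintype A] [Fintype B] {P : A → ℝ} {Q : B → ℝ} (hP : IsLaw P)
    (hQ : IsLaw Q) : IsLaw (prd P Q) := by
  refine ⟨fun z => mul_nonneg (hP.1 _) (hQ.1 _), ?_⟩
  unfold prd
  rw [Fintype.sum_prod_type]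
  simp only [← Finset.mul_sum, hQ.2, mul_one, hP.2]

lemma sum_coord {lam : Perm (Fin n) → ℝ} (h : IsLaw lam) (i : Fin 3) (b : Perm (Fin n)) :
    ∑ y : Fin 3 → Perm (Fin n), (if y i = b then LL lam y else 0) = lam b := by
  have h1 := sum_prod3 (fun (j : Fin 3) (c : Perm (Fin n)) =>
    if j = i then (if c = b then lam c else 0) else lam c)
  have h2 : ∀ y : Fin 3 → Perm (Fin n), (if y i = b then LL lam y else 0) =
      ∏ j, (if j = i then (if y j = b then lam (y j) else 0) else lam (y j)) := by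
    intro y
    by_cases hy : y i = b
    · rw [if_pos hy]
      unfold LL
      refine Finset.prod_congr rfl fun j _ => ?_
      by_cases hj : j = i
      · subst hj; rw [if_pos rfl, if_pos hy]
      · rw [if_neg hj]
    · rw [if_neg hy]
      symm
      apply Finset.prod_eq_zero (Finset.mem_univ i)
      rw [if_pos rfl, if_neg hy]
  rw [Finset.sum_congr rfl fun y _ => h2 y, h1]
  have h3 : ∀ j : Fin 3, (∑ c : Perm (Fin n), (if j = i then (if c = b then lam c else 0) else lam c)) =
      if j = i then lam b else 1 := by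
    intro j
    by_cases hj : j = i
    · simp [hj]
    · simp [hj, h.2]
  rw [Finset.prod_congr rfl fun j _ => h3 j]
  simp

lemma law_coord {ν lam : Perm (Fin n) → ℝ} (h : IsLaw lam) (i : Fin 3) :
    law (prd ν (LL lam)) (fun z => (z.1, z.2 i)) = prd ν lam := by
  classical
  funext ⟨a, b⟩
  unfold law
  rw [Fintype.sum_prod_type]
  have h1 : ∀ g : Perm (Fin n), (∑ y : Fin 3 → Perm (Fin n),
      (if (g, y i) = (a, b) then prd ν (LL lam) (g, y) else 0)) =
      if g = a then ν a * lam b else 0 := by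
    intro g
    by_cases hg : g = a
    · subst hg
      rw [if_pos rfl, ← sum_coord h i b, Finset.mul_sum]
      refine Finset.sum_congr rfl fun y _ => ?_
      by_cases hy : y i = b
      · simp [hy, prd]
      · simp [hy]
    · rw [if_neg hg]
      apply Finset.sum_eq_zero
      intro y _
      rw [if_neg]
      intro hc
      exact hg (Prod.ext_iff.1 hc).1
  convert Finset.sum_congr rfl fun g _ => h1 g using 1
  · refine Finset.sum_congr rfl fun g _ => Finset.sum_congr rfl fun y _ => ?_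
    congr
  · simp [prd]

end prodlaw

section count

variable {n : ℕ}

lemma card_image_le_of_factor {A B C : Type} [DecidableEq B] [DecidableEq C] (s : Finset A)
    (Φ : A → B) (Ψ : A → C) (h : ∀ a ∈ s, ∀ a' ∈ s, Φ a = Φ a' → Ψ a = Ψ a') :
    (s.image Ψ).card ≤ (s.image Φ).card := by
  classical
  set t : Finset (B × C) := s.image (fun a => (Φ a, Ψ a)) with ht
  have h1 : t.image Prod.snd = s.image Ψ := by
    rw [ht, Finset.image_image]; rfl
  have h2 : t.image Prod.fst = s.image Φ := by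
    rw [ht, Finset.image_image]; rfl
  have h3 : (t.image Prod.fst).card = t.card := by
    apply Finset.card_image_of_injOn
    intro x hx x' hx' hxx
    rw [ht, Finset.mem_coe, Finset.mem_image] at hx hx'
    obtain ⟨a, ha, rfl⟩ := hx
    obtain ⟨a', ha', rfl⟩ := hx'
    simp only at hxx
    exact Prod.ext hxx (h a ha a' ha' hxx)
  rw [← h1, ← h2, h3]
  exact Finset.card_image_le

/-- permutations commuting with all `y i` -/
noncomputable def CC (y : Fin 3 → Perm (Fin n)) : Finset (Perm (Fin n)) := by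
  classical exact univ.filter fun c => ∀ i, c * y i = y i * c

lemma mem_CC {y : Fin 3 → Perm (Fin n)} {c : Perm (Fin n)} :
    c ∈ CC y ↔ ∀ i, c * y i = y i * c := by
  unfold CC
  simp

lemma comm_closure {y : Fin 3 → Perm (Fin n)} {c : Perm (Fin n)} (hc : c ∈ CC y)
    {u : Perm (Fin n)} (hu : u ∈ Subgroup.closure (Set.range y)) : c * u = u * c := by
  have h1 : Subgroup.closure (Set.range y) ≤ Subgroup.centralizer {c} := by
    rw [Subgroup.closure_le]
    rintro _ ⟨i, rfl⟩
    rw [SetLike.mem_coe, Subgroup.mem_centralizer_iff]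
    intro h hh
    rw [Set.mem_singleton_iff] at hh
    subst hh
    exact mem_CC.1 hc i
  have h2 := h1 hu
  rw [Subgroup.mem_centralizer_iff] at h2
  exact h2 c rfl

lemma mem_orb {m : ℕ} {y : Fin m → Perm (Fin n)} {p q : Fin n} :
    q ∈ orb y p ↔ ∃ g ∈ Subgroup.closure (Set.range y), g p = q := by
  unfold orb
  simp

lemma self_mem_orb {m : ℕ} (y : Fin m → Perm (Fin n)) (p : Fin n) : p ∈ orb y p :=
  mem_orb.2 ⟨1, Subgroup.one_mem _, rfl⟩

lemma orb_eq {m : ℕ} {y : Fin m → Perm (Fin n)} {p q : Fin n} (h : q ∈ orb y p) :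
    orb y q = orb y p := by
  obtain ⟨g, hg, rfl⟩ := mem_orb.1 h
  ext x
  rw [mem_orb, mem_orb]
  constructor
  · rintro ⟨u, hu, rfl⟩
    exact ⟨u * g, Subgroup.mul_mem _ hu hg, rfl⟩
  · rintro ⟨u, hu, rfl⟩
    exact ⟨u * g⁻¹, Subgroup.mul_mem _ hu (Subgroup.inv_mem _ hg), by simp⟩

/-- the orbits with more than `J` points -/
noncomputable def big (y : Fin 3 → Perm (Fin n)) (J : ℕ) : Finset (Finset (Fin n)) := by
  classical exact (univ.filter fun p : Fin n => J < (orb y p).card).image (orb y)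

lemma mem_big {y : Fin 3 → Perm (Fin n)} {J : ℕ} {O : Finset (Fin n)} :
    O ∈ big y J ↔ ∃ p, J < (orb y p).card ∧ orb y p = O := by
  unfold big
  simp

lemma card_big (y : Fin 3 → Perm (Fin n)) (J : ℕ) : (big y J).card * J ≤ n := by
  classical
  have hdis : ∀ O ∈ big y J, ∀ O' ∈ big y J, O ≠ O' → Disjoint O O' := by
    intro O hO O' hO' hne
    obtain ⟨p, hp, rfl⟩ := mem_big.1 hO
    obtain ⟨q, hq, rfl⟩ := mem_big.1 hO'
    rw [Finset.disjoint_left]
    intro x hx hx'
    exact hne ((orb_eq hx).symm.trans (orb_eq hx'))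
  have h1 : ((big y J).biUnion id).card = ∑ O ∈ big y J, O.card :=
    Finset.card_biUnion hdis
  have h2 : ((big y J).biUnion id).card ≤ n := by
    have := Finset.card_le_univ ((big y J).biUnion id)
    simpa using this
  have h3 : (big y J).card * J ≤ ∑ O ∈ big y J, O.card := by
    rw [← smul_eq_mul]
    apply Finset.card_nsmul_le_sum
    intro O hO
    obtain ⟨p, hp, rfl⟩ := mem_big.1 hO
    exact hp.le
  omega

lemma count (y : Fin 3 → Perm (Fin n)) (J : ℕ) (B : Finset (Fin n)) (g : Perm (Fin n))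
    [DecidableEq (Fin n → Option (Fin n))] :
    ((CC y).image (fun c => res B (g * c))).card ≤
      n ^ ((big y J).card + (B.filter fun p => (orb y p).card ≤ J).card) := by
  classical
  have hr : ∀ O : {O // O ∈ big y J}, ∃ r : Fin n, r ∈ O.1 ∧ orb y r = O.1 := by
    intro O
    obtain ⟨p, hp, hO⟩ := mem_big.1 O.2
    exact ⟨p, hO ▸ self_mem_orb y p, hO⟩
  choose r hr1 hr2 using hr
  set Small := B.filter fun p => (orb y p).card ≤ J with hS
  set Φ : Perm (Fin n) → ({O // O ∈ big y J} → Fin n) × ({p // p ∈ Small} → Fin n) :=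
    fun c => (fun O => c (r O), fun p => c p.1) with hΦ
  have h1 : ((CC y).image (fun c => res B (g * c))).card ≤ ((CC y).image Φ).card := by
    have := card_image_le_of_factor (CC y) Φ (fun c => res B (g * c)) ?_
    · convert this
    · intro c hc c' hc' hcc
      rw [hΦ, Prod.mk.injEq] at hcc
      obtain ⟨hc1, hc2⟩ := hcc
      funext p
      simp only [res]
      by_cases hp : p ∈ B
      · rw [if_pos hp, if_pos hp]
        congr 1
        rw [Perm.mul_apply, Perm.mul_apply]
        congr 1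
        by_cases hsm : (orb y p).card ≤ J
        · have hpS : p ∈ Small := by rw [hS, Finset.mem_filter]; exact ⟨hp, hsm⟩
          exact congrFun hc2 ⟨p, hpS⟩
        · have hO : orb y p ∈ big y J := mem_big.2 ⟨p, not_le.1 hsm, rfl⟩
          have e1 := congrFun hc1 ⟨orb y p, hO⟩
          have e2 := hr2 ⟨orb y p, hO⟩
          have e3 : p ∈ orb y (r ⟨orb y p, hO⟩) := by rw [e2]; exact self_mem_orb y p
          obtain ⟨u, hu, hup⟩ := mem_orb.1 e3
          rw [← hup]
          have f1 : c (u (r ⟨orb y p, hO⟩)) = u (c (r ⟨orb y p, hO⟩)) := by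
            have := comm_closure hc hu
            rw [← Perm.mul_apply, this, Perm.mul_apply]
          have f2 : c' (u (r ⟨orb y p, hO⟩)) = u (c' (r ⟨orb y p, hO⟩)) := by
            have := comm_closure hc' hu
            rw [← Perm.mul_apply, this, Perm.mul_apply]
          rw [f1, f2, e1]
      · rw [if_neg hp, if_neg hp]
  have h2 : ((CC y).image Φ).card ≤ Fintype.card
      (({O // O ∈ big y J} → Fin n) × ({p // p ∈ Small} → Fin n)) := Finset.card_le_univ _
  have h3 : Fintype.card (({O // O ∈ big y J} → Fin n) × ({p // p ∈ Small} → Fin n)) =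
      n ^ ((big y J).card + Small.card) := by
    rw [Fintype.card_prod, Fintype.card_fun, Fintype.card_fun, Fintype.card_fin, pow_add]
    simp
  omega

lemma log_count (hn : 2 ≤ n) (y : Fin 3 → Perm (Fin n)) {J : ℕ} (hJ : 1 ≤ J)
    (B : Finset (Fin n)) (g : Perm (Fin n)) [DecidableEq (Fin n → Option (Fin n))] :
    Real.log (((CC y).image (fun c => res B (g * c))).card : ℝ) ≤
      ((n : ℝ) / J + ((B.filter fun p => (orb y p).card ≤ J).card : ℝ)) * Real.log n := by
  have hn1 : (1 : ℝ) ≤ n := by exact_mod_cast (by omega : 1 ≤ n)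
  have hlog : 0 ≤ Real.log n := Real.log_nonneg hn1
  have hJ0 : (0 : ℝ) < J := by exact_mod_cast hJ
  have hbig : ((big y J).card : ℝ) ≤ (n : ℝ) / J := by
    rw [le_div_iff₀ hJ0]
    exact_mod_cast card_big y J
  by_cases h0 : ((CC y).image (fun c => res B (g * c))).card = 0
  · rw [h0]
    simp only [Nat.cast_zero, Real.log_zero]
    positivity
  · have h1 := count y J B g
    have h2 : (((CC y).image (fun c => res B (g * c))).card : ℝ) ≤
        (n : ℝ) ^ ((big y J).card + (B.filter fun p => (orb y p).card ≤ J).card) := by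
      exact_mod_cast h1
    have h3 : (0 : ℝ) < (((CC y).image (fun c => res B (g * c))).card : ℝ) := by
      exact_mod_cast Nat.pos_of_ne_zero h0
    refine (Real.log_le_log h3 h2).trans ?_
    rw [Real.log_pow, Nat.cast_add]
    exact mul_le_mul_of_nonneg_right (by linarith) hlog

end count

section avg

variable {n : ℕ}

lemma avg_card (hn : 1 ≤ n) (T D : Finset (Fin n)) :
    ∑ π : Perm (Fin n), (((im π D).filter fun p => p ∈ T).card : ℝ) =
      (n.factorial : ℝ) * ((D.card : ℝ) / n * T.card) := by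
  classical
  have hn0 : (0 : ℝ) < n := by exact_mod_cast hn
  set f : Fin n → ℝ := fun q => ∑ π : Perm (Fin n), (if π q ∈ T then (1 : ℝ) else 0) with hf
  have h1 : ∀ π : Perm (Fin n), (((im π D).filter fun p => p ∈ T).card : ℝ) =
      ∑ q ∈ D, (if π q ∈ T then (1 : ℝ) else 0) := by
    intro π
    have e1 : ((im π D).filter fun p => p ∈ T) = (D.filter fun q => π q ∈ T).image π := by
      ext x
      simp only [im, Finset.mem_filter, Finset.mem_image]
      constructor
      · rintro ⟨⟨q, hq, rfl⟩, hx⟩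
        exact ⟨q, ⟨hq, hx⟩, rfl⟩
      · rintro ⟨q, ⟨hq, hx⟩, rfl⟩
        exact ⟨⟨q, hq, rfl⟩, hx⟩
    rw [e1, Finset.card_image_of_injective _ π.injective, Finset.card_filter]
    push_cast
    rfl
  have h2 : ∀ q q', f q = f q' := by
    intro q q'
    rw [hf]
    simp only
    rw [← Equiv.sum_comp (Equiv.mulRight (swap q q'))]
    refine Finset.sum_congr rfl fun π _ => ?_
    simp
  have h3 : ∑ q, f q = (n.factorial : ℝ) * T.card := by
    rw [hf]
    simp only
    rw [Finset.sum_comm]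
    have : ∀ π : Perm (Fin n), ∑ q : Fin n, (if π q ∈ T then (1 : ℝ) else 0) = T.card := by
      intro π
      rw [Equiv.sum_comp π (fun q => if q ∈ T then (1 : ℝ) else 0)]
      simp
    rw [Finset.sum_congr rfl fun π _ => this π]
    simp [Fintype.card_perm]
  have h4 : ∀ q, f q = (n.factorial : ℝ) * T.card / n := by
    intro q
    have : ∑ q', f q' = n * f q := by
      rw [Finset.sum_congr rfl fun q' _ => h2 q' q]
      simp
    rw [h3] at this
    field_simp
    linarith
  rw [Finset.sum_congr rfl fun π _ => h1 π, Finset.sum_comm]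
  have h5 : ∀ q ∈ D, ∑ π : Perm (Fin n), (if π q ∈ T then (1 : ℝ) else 0) =
      (n.factorial : ℝ) * T.card / n := fun q _ => h4 q
  rw [Finset.sum_congr rfl h5]
  simp
  ring

end avg

section main

variable {n : ℕ}

/-- the conjugates -/
def ZZ (z : Perm (Fin n) × (Fin 3 → Perm (Fin n))) : Fin 3 → Perm (Fin n) :=
  fun i => z.1 * z.2 i * z.1⁻¹

/-- what is known -/
def WW (z : Perm (Fin n) × (Fin 3 → Perm (Fin n))) :
    (Fin 3 → Perm (Fin n)) × (Fin 3 → Perm (Fin n)) := (z.2, ZZ z)

lemma ent_ZZ (hl2 : S_L2) (hl3c : S_L3C) (hl4 : S_L4) (hl5 : S_L5)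
    {ν lam : Perm (Fin n) → ℝ} (hν : IsLaw ν) (hlam : IsLaw lam) :
    ent (prd ν (LL lam)) (ZZ (n := n)) ≤ 3 * H (cjr ν lam) := by
  have hP := isLaw_prd hν (isLaw_LL hlam)
  have h1 : ent (prd ν (LL lam)) (ZZ (n := n)) =
      ent (prd ν (LL lam)) (fun z => ((ZZ z 0, ZZ z 1), ZZ z 2)) := by
    apply ent_congr hl2 _ _ _ hP
    intro a b _ _
    constructor
    · intro h; rw [h]
    · intro h
      simp only [Prod.mk.injEq] at h
      funext i
      fin_cases i
      · exact h.1.1
      · exact h.1.2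
      · exact h.2
  have h2 := ent_sub hl2 hl3c hl4 (prd ν (LL lam)) (fun z => (ZZ z 0, ZZ z 1))
    (fun z => ZZ z 2) hP
  have h3 := ent_sub hl2 hl3c hl4 (prd ν (LL lam)) (fun z => ZZ z 0) (fun z => ZZ z 1) hP
  have h4 : ∀ i : Fin 3, ent (prd ν (LL lam)) (fun z => ZZ z i) = H (cjr ν lam) := by
    intro i
    have a1 := (hl5 _ _ _ (prd ν lam) (fun z => z.1 * z.2 * z.1⁻¹) (fun g => g)
      (isLaw_prd hν hlam)).2.2.1
    have a2 := (hl5 _ _ _ (prd ν (LL lam)) (fun z => (z.1, z.2 i))
      (fun z => z.1 * z.2 * z.1⁻¹) hP).2.2.1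
    rw [law_coord hlam i] at a2
    unfold H cjr
    rw [a1, a2]
    rfl
  rw [h1]
  rw [h4 0, h4 1] at h3
  rw [h4 2] at h2
  linarith

lemma main_pi (hl2 : S_L2) (hl3c : S_L3C) (hl4 : S_L4) (hl5 : S_L5) (hl7 : S_L7) (hl8 : S_L8)
    {J : ℕ} {ν lam : Perm (Fin n) → ℝ} {η₂ : ℝ} (hn : 2 ≤ n) (hJ : 1 ≤ J) (hν : IsLaw ν)
    (hlam : IsLaw lam) (hη : H (cjr ν lam) ≤ η₂ * H ν) (B : Finset (Fin n)) :
    (1 - 3 * η₂) * H ν ≤ (H ν - HD ν B) + (n : ℝ) / J * Real.log n +
      Real.log n * ∑ y, LL lam y * ((B.filter fun p => (orb y p).card ≤ J).card : ℝ) := by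
  classical
  have hL := isLaw_LL hlam
  have hP := isLaw_prd hν hL
  set P := prd ν (LL lam) with hPdef
  -- L7 facts
  obtain ⟨-, e1, e2, e3⟩ := (hl7 (Perm (Fin n)) (Fin 3 → Perm (Fin n)) (Fin 3 → Perm (Fin n))
    Unit (Perm (Fin n)) ν (fun _ => LL lam) (fun _ y => y) (fun _ _ => ()) (fun g => g) hν
    (fun _ => hL)).2.2.2.2 (LL lam) (fun y => y) hL
  obtain ⟨-, -, e4, -⟩ := (hl7 (Perm (Fin n)) (Fin 3 → Perm (Fin n)) Unit
    Unit (Fin n → Option (Fin n)) ν (fun _ => LL lam) (fun _ y => ()) (fun _ _ => ())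
    (fun g => res B g) hν (fun _ => hL)).2.2.2.2 (LL lam) (fun y => ()) hL
  rw [← hPdef] at e1 e2 e3 e4
  have e1' : ent P (fun z => (z.1, z.2)) = H ν + H (LL lam) := e1
  have e2' : ent P (fun z => z.1) = H ν := e2
  have e3' : ent P (fun z => z.2) = H (LL lam) := e3
  have e4' : ent P (fun z => res B z.1) = HD ν B := e4
  have f1 : ent P (fun z => (z.1, WW z)) = ent P (fun z => (z.1, z.2)) := by
    apply ent_congr hl2 _ _ _ hP
    intro a b _ _
    constructor
    · intro h
      simp only [WW, Prod.mk.injEq] at h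
      exact Prod.ext h.1 h.2.1
    · intro h
      have : a = b := h
      rw [this]
  have f2 : ent P (WW (n := n)) ≤ H (LL lam) + 3 * H (cjr ν lam) := by
    have := ent_sub hl2 hl3c hl4 P (fun z => z.2) (ZZ (n := n)) hP
    have h2 := ent_ZZ hl2 hl3c hl4 hl5 hν hlam
    rw [e3'] at this
    have h3 : ent P (WW (n := n)) = ent P (fun ω => (ω.2, ZZ ω)) := rfl
    rw [h3]
    linarith
  -- the conditionally independent copy
  obtain ⟨hQ, hfst, hsnd, -, hpos, hcent⟩ := hl8 _ _ _ _ P (fun z => z.1) (fun z => z.1)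
    (WW (n := n)) hP
  set Q := ccp P (WW (n := n)) with hQdef
  have t1 : ∀ {α : Type} (X : Perm (Fin n) × (Fin 3 → Perm (Fin n)) → α),
      ent Q (fun z => X z.1) = ent P X := by
    intro α X
    have := (hl5 _ _ _ Q Prod.fst X hQ).2.2.1
    rw [hfst] at this
    exact this.symm
  have t2 : ∀ {α : Type} (X : Perm (Fin n) × (Fin 3 → Perm (Fin n)) → α),
      ent Q (fun z => X z.2) = ent P X := by
    intro α X
    have := (hl5 _ _ _ Q Prod.snd X hQ).2.2.1
    rw [hsnd] at this
    exact this.symm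
  -- the variables
  have g2 : ent Q (fun z => ((z.1.1, z.2.1), WW z.1)) =
      ent Q (fun z => (z.2.1, (z.1.1, z.1.2))) := by
    apply ent_congr hl2 _ _ _ hQ
    intro a b _ _
    constructor
    · intro h
      simp only [WW, Prod.mk.injEq] at h
      rw [h.1.1, h.1.2, h.2.1]
    · intro h
      simp only [Prod.mk.injEq] at h
      have : a.1 = b.1 := Prod.ext h.2.1 h.2.2
      rw [this, h.1]
  have g4 := (hl4 _ _ _ _ Q (fun z => z.2.1) (fun z => (z.1.1, z.1.2)) (fun z => res B z.2.1) hQ).2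
  have g5 : ent Q (fun z => (z.2.1, (z.1.1, z.1.2))) ≤
      ent Q (fun z => (z.2.1, (z.1.1, z.1.2), res B z.2.1)) := by
    apply hl2 _ _ _ Q _ _ hQ
    intro a b _ _ h
    simp only [Prod.mk.injEq] at h
    rw [h.1, h.2.1.1, h.2.1.2]
  have g6 : ent Q (fun z => (z.2.1, res B z.2.1)) ≤ ent Q (fun z => z.2.1) := by
    apply hl2 _ _ _ Q _ _ hQ
    intro a b _ _ h
    rw [h]
  have g7 : ent Q (fun z => ((z.1.1, z.1.2), res B z.2.1)) =
      ent Q (fun z => (res B z.2.1, (z.1.1, z.1.2))) := by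
    apply ent_congr hl2 _ _ _ hQ
    intro a b _ _
    constructor
    · intro h
      simp only [Prod.mk.injEq] at h ⊢
      exact ⟨h.2, h.1⟩
    · intro h
      simp only [Prod.mk.injEq] at h ⊢
      exact ⟨h.2, h.1⟩
  have q1 : ent Q (fun z => z.2.1) = H ν := (t2 (fun z => z.1)).trans e2'
  have q2 : ent Q (fun z => res B z.2.1) = HD ν B := (t2 (fun z => res B z.1)).trans e4'
  have q3 : ent Q (fun z => (z.1.1, z.1.2)) = H ν + H (LL lam) :=
    (t1 (fun z => (z.1, z.2))).trans e1'
  have q4 : ent Q (fun z => WW z.1) = ent P (WW (n := n)) := t1 WW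
  -- counting
  have c1 : cent Q (fun z => res B z.2.1) (fun z => (z.1.1, z.1.2)) ≤
      ∑ z, Q z * (((n : ℝ) / J + ((B.filter fun p => (orb z.1.2 p).card ≤ J).card : ℝ)) *
        Real.log n) := by
    have hs := (hl3c _ _ _ Q (fun z => res B z.2.1) (fun z => (z.1.1, z.1.2)) hQ).1
      (fun w => (CC w.2).image (fun c => res B (w.1 * c))) ?_
    · refine hs.trans (Finset.sum_le_sum fun z _ => ?_)
      exact mul_le_mul_of_nonneg_left (log_count hn z.1.2 hJ B z.1.1) (hQ.1 z)
    · intro z hz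
      have hW := hpos z hz
      simp only [WW, Prod.mk.injEq] at hW
      obtain ⟨hW1, hW2⟩ := hW
      rw [Finset.mem_image]
      refine ⟨z.1.1⁻¹ * z.2.1, ?_, by simp⟩
      rw [mem_CC]
      intro i
      have h3 := congrFun hW2 i
      simp only [ZZ] at h3
      rw [← hW1] at h3
      have h4 : z.1.2 i = z.1.1⁻¹ * (z.1.1 * z.1.2 i * z.1.1⁻¹) * z.1.1 := by group
      calc z.1.1⁻¹ * z.2.1 * z.1.2 i
          = z.1.1⁻¹ * (z.2.1 * z.1.2 i * z.2.1⁻¹) * z.2.1 := by group
        _ = z.1.1⁻¹ * (z.1.1 * z.1.2 i * z.1.1⁻¹) * z.2.1 := by rw [h3]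
        _ = z.1.2 i * (z.1.1⁻¹ * z.2.1) := by group
  have c2 : ∑ z, Q z * (((n : ℝ) / J + ((B.filter fun p => (orb z.1.2 p).card ≤ J).card : ℝ)) *
        Real.log n) = (n : ℝ) / J * Real.log n +
      Real.log n * ∑ y, LL lam y * ((B.filter fun p => (orb y p).card ≤ J).card : ℝ) := by
    have h5 := (hl5 _ _ Unit Q Prod.fst (fun _ => ()) hQ).2.2.2
      (fun w => (((n : ℝ) / J + ((B.filter fun p => (orb w.2 p).card ≤ J).card : ℝ)) *
        Real.log n))
    rw [← h5, hfst, hPdef]
    unfold prd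
    rw [Fintype.sum_prod_type]
    have h6 : ∀ g : Perm (Fin n), ∑ y, ν g * LL lam y *
        (((n : ℝ) / J + ((B.filter fun p => (orb y p).card ≤ J).card : ℝ)) * Real.log n) =
        ν g * ((n : ℝ) / J * Real.log n + Real.log n *
          ∑ y, LL lam y * ((B.filter fun p => (orb y p).card ≤ J).card : ℝ)) := by
      intro g
      have h7 : ∑ y, LL lam y *
        (((n : ℝ) / J + ((B.filter fun p => (orb y p).card ≤ J).card : ℝ)) * Real.log n) =
        (n : ℝ) / J * Real.log n * (∑ y, LL lam y) + Real.log n *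
          ∑ y, LL lam y * ((B.filter fun p => (orb y p).card ≤ J).card : ℝ) := by
        rw [Finset.mul_sum, Finset.mul_sum, ← Finset.sum_add_distrib]
        exact Finset.sum_congr rfl fun y _ => by ring
      rw [hL.2, mul_one] at h7
      rw [← h7, Finset.mul_sum]
      exact Finset.sum_congr rfl fun y _ => by ring
    rw [Finset.sum_congr rfl fun g _ => h6 g, ← Finset.sum_mul, hν.2, one_mul]
  rw [c2] at c1
  -- assembly
  unfold cent at hcent c1
  rw [g2, q4] at hcent
  have f1' : ent P (fun z => (z.1, WW z)) = H ν + H (LL lam) := f1.trans e1'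
  rw [f1'] at hcent
  rw [q3] at c1
  rw [g7] at g4
  rw [q2] at g4
  rw [q1] at g6
  nlinarith [hcent, c1, g4, g5, g6, f2, hη]

end main

theorem thmFIN (hl2 : Pool.Agent.Helper6.NX.S_L2) (hl3c : Pool.Agent.Helper6.NX.S_L3C)
    (hl4 : Pool.Agent.Helper6.NX.S_L4) (hl5 : Pool.Agent.Helper6.NX.S_L5)
    (hl7 : Pool.Agent.Helper6.NX.S_L7) (hl8 : Pool.Agent.Helper6.NX.S_L8)
    (havg : Pool.Agent.Helper6.NX.S_AVG) : Pool.Agent.Helper6.NX.S_FIN := by
  classical
  intro n J b ν lam η₂ κ hn hJ hb hν hlam hη hκ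
  have hn1 : 1 ≤ n := by omega
  have hnR : (0 : ℝ) < n := by exact_mod_cast hn1
  have hfac : (0 : ℝ) < (n.factorial : ℝ) := by exact_mod_cast Nat.factorial_pos n
  have hL := isLaw_LL hlam
  have hlog : 0 ≤ Real.log n := Real.log_nonneg (by exact_mod_cast hn1)
  have hini : (ini n b).card = b := (havg n b).2.2 hb
  set R : ℝ := (1 - 3 * η₂) * H ν with hR
  have h1 : ∀ π : Perm (Fin n), R ≤ (H ν - HD ν (im π (ini n b))) + (n : ℝ) / J * Real.log n +
      Real.log n * ∑ y, LL lam y *
        (((im π (ini n b)).filter fun p => (orb y p).card ≤ J).card : ℝ) := fun π =>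
    main_pi hl2 hl3c hl4 hl5 hl7 hl8 hn hJ hν hlam hη _
  have h2 := Finset.sum_le_sum fun (π : Perm (Fin n)) (_ : π ∈ univ) => h1 π
  rw [Finset.sum_add_distrib, Finset.sum_add_distrib, Finset.sum_sub_distrib] at h2
  simp only [Finset.sum_const, Finset.card_univ, Fintype.card_perm, Fintype.card_fin,
    nsmul_eq_mul] at h2
  have h3 : ∑ π : Perm (Fin n), HD ν (im π (ini n b)) = (n.factorial : ℝ) * AA ν b := by
    unfold AA
    field_simp
  have h4 : ∑ π : Perm (Fin n), Real.log n * ∑ y, LL lam y *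
        (((im π (ini n b)).filter fun p => (orb y p).card ≤ J).card : ℝ) =
      (n.factorial : ℝ) * (Real.log n * ((b : ℝ) / n * ∑ y, LL lam y *
        ((Finset.univ.filter fun p : Fin n => (orb y p).card ≤ J).card : ℝ))) := by
    rw [← Finset.mul_sum, Finset.sum_comm]
    have : ∀ y : Fin 3 → Perm (Fin n), ∑ π : Perm (Fin n), LL lam y *
        (((im π (ini n b)).filter fun p => (orb y p).card ≤ J).card : ℝ) =
        (n.factorial : ℝ) * ((b : ℝ) / n) * (LL lam y *
          ((Finset.univ.filter fun p : Fin n => (orb y p).card ≤ J).card : ℝ)) := by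
      intro y
      rw [← Finset.mul_sum]
      have h5 := avg_card hn1 (Finset.univ.filter fun p : Fin n => (orb y p).card ≤ J) (ini n b)
      simp only [Finset.mem_filter, Finset.mem_univ, true_and] at h5
      rw [h5, hini]
      ring
    rw [Finset.sum_congr rfl fun y _ => this y, ← Finset.mul_sum]
    ring
  rw [h3, h4] at h2
  have h5 : (b : ℝ) / n * ∑ y, LL lam y *
        ((Finset.univ.filter fun p : Fin n => (orb y p).card ≤ J).card : ℝ) ≤ b * κ := by
    have h6 : ∑ y, LL lam y *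
        ((Finset.univ.filter fun p : Fin n => (orb y p).card ≤ J).card : ℝ) ≤ κ * n := hκ
    have h7 : (b : ℝ) / n * ∑ y, LL lam y *
        ((Finset.univ.filter fun p : Fin n => (orb y p).card ≤ J).card : ℝ) ≤
        (b : ℝ) / n * (κ * n) := mul_le_mul_of_nonneg_left h6 (by positivity)
    have h8 : (b : ℝ) / n * (κ * n) = b * κ := by field_simp
    linarith
  have h6 := mul_le_mul_of_nonneg_left h5 hlog
  have h7 : (n.factorial : ℝ) * R ≤ (n.factorial : ℝ) *
      ((H ν - AA ν b) + (n : ℝ) / J * Real.log n + Real.log n * (b * κ)) := by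
    refine h2.trans ?_
    have := mul_le_mul_of_nonneg_left h6 hfac.le
    nlinarith [this]
  have h8 := le_of_mul_le_mul_left h7 hfac
  linarith

end Pool.Agent.Helper10.NX.FIN
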